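import Pool.Agent.Helper85.QT.St3

/-!
# Project QT, module DFX: fixed points of the elements which are not conjugate into `⟨α⟩`
-/

set_option autoImplicit false

open MeasureTheory Matrix Set Topology
open scoped ENNReal ComplexConjugate

namespace Pool.Agent.Helper40.QT

open Pool.Agent.Helper85.QT Pool.Agent.Helper86.QA

theorem dfx_det (g : SL) : g 0 0 * g 1 1 - g 0 1 * g 1 0 = 1 := by
  have h := g.det_coe
  rwa [Matrix.det_fin_two] at h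

theorem dfx_mul (g h : SL) (i j : Fin 2) : (g * h) i j = g i 0 * h 0 j + g i 1 * h 1 j := by
  rw [Matrix.SpecialLinearGroup.coe_mul, Matrix.mul_apply, Fin.sum_univ_two]

theorem dfx_inv (g : SL) : (g⁻¹) 0 0 = g 1 1 ∧ (g⁻¹) 0 1 = -g 0 1 ∧ (g⁻¹) 1 0 = -g 1 0 ∧
    (g⁻¹) 1 1 = g 0 0 := by
  rw [Matrix.SpecialLinearGroup.SL2_inv_expl]
  exact ⟨rfl, rfl, rfl, rfl⟩

/-- conjugation by a diagonal matrix -/
theorem dfx_conj (g δ : SL) (h01 : g 0 1 = 0) (h10 : g 1 0 = 0) :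
    (g⁻¹ * δ * g) 0 0 = δ 0 0 ∧ (g⁻¹ * δ * g) 0 1 = δ 0 1 * g 1 1 ^ 2 ∧
    (g⁻¹ * δ * g) 1 0 = δ 1 0 * g 0 0 ^ 2 ∧ (g⁻¹ * δ * g) 1 1 = δ 1 1 := by
  obtain ⟨i00, i01, i10, i11⟩ := dfx_inv g
  have hd := dfx_det g
  rw [h01, zero_mul, sub_zero] at hd
  refine ⟨?_, ?_, ?_, ?_⟩
  · rw [dfx_mul, dfx_mul, dfx_mul, i00, i01, h01, h10]
    linear_combination δ 0 0 * hd
  · rw [dfx_mul, dfx_mul, dfx_mul, i00, i01, h01]
    ring
  · rw [dfx_mul, dfx_mul, dfx_mul, i10, i11, h10]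
    ring
  · rw [dfx_mul, dfx_mul, dfx_mul, i10, i11, h01, h10]
    linear_combination δ 1 1 * hd

theorem dfx_pigeon {Γ : Type} {S : Set Γ} (hS : S.Finite) (f : ℕ → Γ) (hf : ∀ k, f k ∈ S) :
    ∃ j k, j < k ∧ f j = f k := by
  by_contra hcon
  have hcon' : ∀ j k, j < k → f j ≠ f k := fun j k h he => hcon ⟨j, k, h, he⟩
  have hinj : Function.Injective f := by
    intro j k hjk
    rcases lt_trichotomy j k with h | h | h
    · exact absurd hjk (hcon' j k h)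
    · exact h
    · exact absurd hjk.symm (hcon' k j h)
  exact Set.infinite_of_injective_forall_mem hinj hf hS

theorem dfx_pow (hCHV : StCHV) {Γ : Type} [Group Γ] (ρ : Γ →* SL) (γ : Γ) (x : ℂ)
    (h0 : (ρ γ) 1 0 * x + (ρ γ) 1 1 ≠ 0) (h1 : mb (ρ γ) x = x) (n : ℕ) :
    mb (ρ (γ ^ n)) x = x := by
  induction n with
  | zero =>
    rw [pow_zero, map_one]
    exact hCHV.2.2.2.1 x
  | succ n ih =>
    rw [pow_succ, map_mul, (hCHV.2.1 (ρ (γ ^ n)) (ρ γ) x h0).1, h1, ih]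

/-- fixed points of nontrivial elements are limit points -/
theorem dfx_LS (hCHV : StCHV) (hPD2 : StPD2) {Γ : Type} [Group Γ] (ρ : Γ →* SL) (A B : Set ℂ)
    (kd : KD ρ A B) (γ : Γ) (hγ : γ ≠ 1) (x : ℂ)
    (h0 : (ρ γ) 1 0 * x + (ρ γ) 1 1 ≠ 0) (h1 : mb (ρ γ) x = x) : x ∈ LS A B := by
  by_contra hx
  have hx' : x ∈ A ∪ B := by_contra fun h => hx h
  have hsub : ({x} : Set ℂ) ⊆ A ∪ B := by
    rw [Set.singleton_subset_iff]
    exact hx'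
  have hfin := (hPD2 Γ ρ A B kd {x} {x} 0 0 isCompact_singleton hsub isCompact_singleton
    hsub).2.2
  obtain ⟨j, k, hjk, he⟩ := dfx_pigeon hfin (fun n => γ ^ n)
    (fun n => ⟨x, rfl, dfx_pow hCHV ρ γ x h0 h1 n⟩)
  have he' : γ ^ j = γ ^ k := he
  apply hγ
  refine kd.tf γ (k - j) (by omega) ?_
  have h2 : γ ^ j * γ ^ (k - j) = γ ^ k := by
    rw [← pow_add]
    congr 1
    omega
  apply mul_left_cancel (a := γ ^ j)
  rw [h2, mul_one, he']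

/-- discreteness: an entry which tends to zero along conjugates is zero -/
theorem dfx_disc {Γ : Type} [Group Γ] (ρ : Γ →* SL) (lam : ℂ) (hre : 0 < lam.re)
    (disc : ∀ X : ℝ, {γ : Γ | Pool.Agent.Helper35.PM.hs (ρ γ) ≤ X}.Finite) (f : ℕ → Γ)
    (C : ℝ) (q : ℂ) (i j : Fin 2)
    (hent : ∀ k : ℕ, (ρ (f k)) i j = q * Complex.exp (-(k * lam)))
    (hbd : ∀ k, Pool.Agent.Helper35.PM.hs (ρ (f k)) ≤ C) : q = 0 := by
  by_contra hq
  obtain ⟨m, n, hmn, he⟩ := dfx_pigeon (disc C) f hbd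
  have h1 := hent m
  have h2 := hent n
  rw [he, h2] at h1
  have h3 := mul_left_cancel₀ hq h1
  have h4 := congrArg norm h3
  rw [Complex.norm_exp, Complex.norm_exp] at h4
  have h5 := Real.exp_injective h4
  have h6 : ∀ k : ℕ, (-((k : ℂ) * lam)).re = -(k * lam.re) := by
    intro k
    simp
  rw [h6, h6] at h5
  have h7 : (n : ℝ) * lam.re = m * lam.re := by linarith
  have h8 := mul_right_cancel₀ hre.ne' h7
  have h9 : n = m := by exact_mod_cast h8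
  omega

theorem hDFX (hCHV : Pool.Agent.Helper86.QA.StCHV) (hPD2 : Pool.Agent.Helper86.QA.StPD2)
    (hSB3 : Pool.Agent.Helper85.QT.StSB3) (hANA : Pool.Agent.Helper85.QT.StANA) :
    Pool.Agent.Helper85.QT.StDFX := by
  intro Γ _ ρ A B α lam M G m φ C3 hA γ a b l hγ hM _
  have kd := hA.kd
  obtain ⟨hab, ha0, ha1, hb0, hb1, _⟩ := hM
  have hγ1 : γ ≠ 1 := by
    intro h
    apply hγ 1 0
    rw [h]
    simp
  -- powers of `α`
  obtain ⟨hal, _⟩ := hANA Γ ρ A B α lam M G m φ C3 hA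
  have hα : ∀ n : ℤ, (ρ (α ^ n)) 0 1 = 0 ∧ (ρ (α ^ n)) 1 0 = 0 ∧
      (ρ (α ^ n)) 1 1 ^ 2 = Complex.exp (-(n * lam)) ∧
      (ρ (α ^ n)) 0 0 ^ 2 = Complex.exp (n * lam) := by
    intro n
    have h10 : (ρ (α ^ n)) 1 0 = 0 := by
      by_contra hc
      apply (hal n (-((ρ (α ^ n)) 1 1 / (ρ (α ^ n)) 1 0))).1
      field_simp
      ring
    have h11 : (ρ (α ^ n)) 1 1 ≠ 0 := by
      have := (hal n 0).1
      rwa [mul_zero, zero_add] at this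
    have h01 : (ρ (α ^ n)) 0 1 = 0 := by
      have := (hal n 0).2
      unfold mb at this
      rw [mul_zero, mul_zero, mul_zero, zero_add, zero_add, div_eq_zero_iff] at this
      rcases this with h | h
      · exact h
      · exact absurd h h11
    have h00 : (ρ (α ^ n)) 0 0 = Complex.exp (n * lam) * (ρ (α ^ n)) 1 1 := by
      have := (hal n 1).2
      unfold mb at this
      rw [h01, h10, mul_one, mul_one, mul_one, add_zero, zero_add, div_eq_iff h11] at this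
      exact this
    have hd := dfx_det (ρ (α ^ n))
    rw [h01, zero_mul, sub_zero] at hd
    have he : Complex.exp (-(n * lam)) * Complex.exp (n * lam) = 1 := by
      rw [← Complex.exp_add]
      simp
    refine ⟨h01, h10, ?_, ?_⟩
    · have h1 : Complex.exp (n * lam) * (ρ (α ^ n)) 1 1 ^ 2 = 1 := by
        linear_combination hd - (ρ (α ^ n)) 1 1 * h00
      linear_combination Complex.exp (-(n * lam)) * h1 - (ρ (α ^ n)) 1 1 ^ 2 * he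
    · linear_combination (ρ (α ^ n)) 0 0 * h00 + Complex.exp (n * lam) * hd
  have hre := hA.re
  have hnorm : ∀ k : ℕ, ‖Complex.exp (-((k : ℂ) * lam))‖ ≤ 1 := by
    intro k
    rw [Complex.norm_exp, Real.exp_le_one_iff]
    have h6 : (-((k : ℂ) * lam)).re = -(k * lam.re) := by simp
    rw [h6]
    have : 0 ≤ (k : ℝ) * lam.re := by positivity
    linarith
  have hhs : ∀ g : SL, Pool.Agent.Helper35.PM.hs (g : Mat)
      = ‖g 0 0‖ ^ 2 + ‖g 0 1‖ ^ 2 + (‖g 1 0‖ ^ 2 + ‖g 1 1‖ ^ 2) := by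
    intro g
    unfold Pool.Agent.Helper35.PM.hs
    rw [Fin.sum_univ_two, Fin.sum_univ_two, Fin.sum_univ_two]
  have hsmall : ∀ (q : ℂ) (k : ℕ), ‖q * Complex.exp (-((k : ℂ) * lam))‖ ^ 2 ≤ ‖q‖ ^ 2 := by
    intro q k
    rw [norm_mul]
    have h1 := hnorm k
    have h2 := norm_nonneg q
    have h3 : ‖q‖ * ‖Complex.exp (-((k : ℂ) * lam))‖ ≤ ‖q‖ := mul_le_of_le_one_right h2 h1
    exact pow_le_pow_left₀ (by positivity) h3 2
  have hconj : ∀ (δ : Γ) (n : ℤ),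
      ρ ((α ^ n)⁻¹ * δ * α ^ n) = (ρ (α ^ n))⁻¹ * ρ δ * ρ (α ^ n) := by
    intro δ n
    rw [map_mul, map_mul, map_inv]
  have diag1 : ∀ δ : Γ, (ρ δ) 1 0 = 0 → (ρ δ) 0 1 = 0 := by
    intro δ h
    have hent : ∀ k : ℕ, (ρ ((α ^ (k : ℤ))⁻¹ * δ * α ^ (k : ℤ))) 0 1
        = (ρ δ) 0 1 * Complex.exp (-(k * lam)) := by
      intro k
      obtain ⟨h01, h10, h11, _⟩ := hα k
      rw [hconj, (dfx_conj _ (ρ δ) h01 h10).2.1, h11]
      push_cast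
      rfl
    refine dfx_disc ρ lam hre kd.disc (fun k => (α ^ (k : ℤ))⁻¹ * δ * α ^ (k : ℤ))
      (‖(ρ δ) 0 0‖ ^ 2 + ‖(ρ δ) 0 1‖ ^ 2 + ‖(ρ δ) 1 1‖ ^ 2) _ 0 1 hent ?_
    intro k
    obtain ⟨h01, h10, _, _⟩ := hα k
    obtain ⟨c1, _, c3, c4⟩ := dfx_conj _ (ρ δ) h01 h10
    rw [h, zero_mul] at c3
    rw [hhs, hent k, hconj, c1, c3, c4, norm_zero]
    have := hsmall ((ρ δ) 0 1) k
    linarith
  have diag2 : ∀ δ : Γ, (ρ δ) 0 1 = 0 → (ρ δ) 1 0 = 0 := by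
    intro δ h
    have hent : ∀ k : ℕ, (ρ ((α ^ (-(k : ℤ)))⁻¹ * δ * α ^ (-(k : ℤ)))) 1 0
        = (ρ δ) 1 0 * Complex.exp (-(k * lam)) := by
      intro k
      obtain ⟨h01, h10, _, h00⟩ := hα (-(k : ℤ))
      rw [hconj, (dfx_conj _ (ρ δ) h01 h10).2.2.1, h00]
      push_cast
      rw [neg_mul]
    refine dfx_disc ρ lam hre kd.disc (fun k => (α ^ (-(k : ℤ)))⁻¹ * δ * α ^ (-(k : ℤ)))
      (‖(ρ δ) 0 0‖ ^ 2 + ‖(ρ δ) 1 0‖ ^ 2 + ‖(ρ δ) 1 1‖ ^ 2) _ 1 0 hent ?_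
    intro k
    obtain ⟨h01, h10, _, _⟩ := hα (-(k : ℤ))
    obtain ⟨c1, c2, _, c4⟩ := dfx_conj _ (ρ δ) h01 h10
    rw [h, zero_mul] at c2
    rw [hhs, hent k, hconj, c1, c2, c4, norm_zero]
    have := hsmall ((ρ δ) 1 0) k
    linarith
  -- numerator and denominator
  have key : ∀ x : ℂ, (ρ γ) 1 0 * x + (ρ γ) 1 1 ≠ 0 → mb (ρ γ) x = x → ∀ g : Γ,
      (ρ g⁻¹) 0 0 * x + (ρ g⁻¹) 0 1 ≠ 0 ∧ (ρ g⁻¹) 1 0 * x + (ρ g⁻¹) 1 1 ≠ 0 := by
    intro x h0 h1 g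
    have hnum : (ρ γ) 0 0 * x + (ρ γ) 0 1 = x * ((ρ γ) 1 0 * x + (ρ γ) 1 1) := by
      unfold mb at h1
      rwa [div_eq_iff h0] at h1
    have hrel : ρ (g⁻¹ * γ * g) * ρ g⁻¹ = ρ g⁻¹ * ρ γ := by
      rw [← map_mul, ← map_mul]
      congr 1
      group
    have hrow : ∀ i : Fin 2, (ρ (g⁻¹ * γ * g)) i 0 * ((ρ g⁻¹) 0 0 * x + (ρ g⁻¹) 0 1)
        + (ρ (g⁻¹ * γ * g)) i 1 * ((ρ g⁻¹) 1 0 * x + (ρ g⁻¹) 1 1)
        = ((ρ γ) 1 0 * x + (ρ γ) 1 1) * ((ρ g⁻¹) i 0 * x + (ρ g⁻¹) i 1) := by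
      intro i
      have e0 : (ρ (g⁻¹ * γ * g) * ρ g⁻¹) i 0 = (ρ g⁻¹ * ρ γ) i 0 := by rw [hrel]
      have e1 : (ρ (g⁻¹ * γ * g) * ρ g⁻¹) i 1 = (ρ g⁻¹ * ρ γ) i 1 := by rw [hrel]
      rw [dfx_mul, dfx_mul] at e0 e1
      linear_combination x * e0 + e1 + (ρ g⁻¹) i 0 * hnum
    have hdet := dfx_det (ρ g⁻¹)
    have hne : ¬ ((ρ g⁻¹) 0 0 * x + (ρ g⁻¹) 0 1 = 0 ∧ (ρ g⁻¹) 1 0 * x + (ρ g⁻¹) 1 1 = 0) := by
      rintro ⟨hp, hq⟩
      have : (1 : ℂ) = 0 := by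
        linear_combination -hdet + (ρ g⁻¹) 0 0 * hq - (ρ g⁻¹) 1 0 * hp
      exact one_ne_zero this
    constructor
    · intro hp
      have hq : (ρ g⁻¹) 1 0 * x + (ρ g⁻¹) 1 1 ≠ 0 := fun hq => hne ⟨hp, hq⟩
      have h2 := hrow 0
      rw [hp, mul_zero, mul_zero, zero_add] at h2
      have h3 : (ρ (g⁻¹ * γ * g)) 0 1 = 0 := by
        rcases mul_eq_zero.mp h2 with h | h
        · exact h
        · exact absurd h hq
      obtain ⟨n, hn⟩ := hA.st _ (Or.inl ⟨h3, diag2 _ h3⟩)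
      exact hγ g n hn
    · intro hq
      have hp : (ρ g⁻¹) 0 0 * x + (ρ g⁻¹) 0 1 ≠ 0 := fun hp => hne ⟨hp, hq⟩
      have h2 := hrow 1
      rw [hq, mul_zero, mul_zero, add_zero] at h2
      have h3 : (ρ (g⁻¹ * γ * g)) 1 0 = 0 := by
        rcases mul_eq_zero.mp h2 with h | h
        · exact h
        · exact absurd h hp
      obtain ⟨n, hn⟩ := hA.st _ (Or.inl ⟨diag1 _ h3, h3⟩)
      exact hγ g n hn
  have haL := dfx_LS hCHV hPD2 ρ A B kd γ hγ1 a ha0 ha1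
  have hbL := dfx_LS hCHV hPD2 ρ A B kd γ hγ1 b hb0 hb1
  refine ⟨haL, hbL, fun g => ?_⟩
  obtain ⟨pa, qa⟩ := key a ha0 ha1 g
  obtain ⟨pb, qb⟩ := key b hb0 hb1 g
  refine ⟨mul_ne_zero pa qa, mul_ne_zero pb qb, qa, qb, (hSB3 Γ ρ A B kd).2.1 g⁻¹ a haL qa,
    div_ne_zero pa qa, (hSB3 Γ ρ A B kd).2.1 g⁻¹ b hbL qb, div_ne_zero pb qb, ?_⟩
  intro he
  have h2 := hCHV.2.2.1 (ρ g⁻¹) a b qa qb
  rw [he, sub_self] at h2
  have h3 := (div_ne_zero (sub_ne_zero.mpr hab) (mul_ne_zero qa qb))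
  exact h3 h2.symm

end Pool.Agent.Helper40.QT
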