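import Pool.Agent.Helper85.QT.St2

/-!
# Project QT, module LSD: the limit set is far from the middle of the annulus
-/

set_option autoImplicit false

open MeasureTheory Matrix Set Topology
open scoped ENNReal ComplexConjugate

namespace Pool.Agent.Helper40.QT

open Pool.Agent.Helper85.QT Pool.Agent.Helper86.QA

theorem exp_per {lam : ℂ} (hl : lam ≠ 0) (ζ : ℂ) (k : ℤ) :
    Complex.exp (lam * (ζ + k * (2 * Real.pi * Complex.I / lam))) = Complex.exp (lam * ζ) := by
  have h : lam * (ζ + k * (2 * Real.pi * Complex.I / lam))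
      = lam * ζ + k * (2 * Real.pi * Complex.I) := by
    field_simp
  rw [h, Complex.exp_add, Complex.exp_int_mul_two_pi_mul_I, mul_one]

theorem ball_sub_Sm {m r : ℝ} {w : ℂ} (hr : r ≤ dd m w) : Metric.ball w r ⊆ Sm m := by
  intro v hv
  have h1 : |v.im - w.im| < r := by
    have h : |(v - w).im| ≤ ‖v - w‖ := Complex.abs_im_le_norm _
    rw [Complex.sub_im] at h
    exact lt_of_le_of_lt h (by simpa [dist_eq_norm] using hv)
  rw [abs_lt] at h1
  unfold dd at hr
  have h2 := le_min_iff.mp hr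
  exact ⟨by linarith [h2.1], by linarith [h2.2]⟩

/-- part (1): the limit set is far from the middle -/
theorem far (hFDC : StFDC) (hHN1 : StHN1) {lam : ℂ} (hl : lam ≠ 0) {A B : Set ℂ} {m : ℝ}
    {f : ℂ → ℂ} (hf : HN m f) (hA : ∀ w ∈ Sm m, Complex.exp (lam * f w) ∈ A)
    (w : ℂ) (r : ℝ) (h2 : 2 ≤ r) (hr : r ≤ dd m w) (ξ : ℂ) (hξ : ξ ∈ LS A B) (h0 : ξ ≠ 0) :
    r / 16 ≤ fd lam (Complex.exp (lam * f w)) ξ := by
  by_contra hlt
  rw [not_le] at hlt
  obtain ⟨η₀, hη₀⟩ : ∃ η₀, Complex.exp (lam * η₀) = ξ :=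
    ⟨Complex.log ξ / lam, by rw [mul_div_cancel₀ _ hl, Complex.exp_log h0]⟩
  obtain ⟨k, hk⟩ := ((hFDC lam hl).2.2.1 (f w) η₀).2
  rw [hη₀] at hk
  rw [hk] at hlt
  have hmem : η₀ + ((-k : ℤ) : ℂ) * (2 * Real.pi * Complex.I / lam)
      ∈ Metric.ball (f w) (r / 16) := by
    rw [Metric.mem_ball, dist_eq_norm, ← norm_neg]
    have he : -(η₀ + ((-k : ℤ) : ℂ) * (2 * Real.pi * Complex.I / lam) - f w)
        = f w - η₀ + k * (2 * Real.pi * Complex.I / lam) := by
      push_cast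
      ring
    rw [he]
    exact hlt
  obtain ⟨v, hv, hvη⟩ := (hHN1 m f hf).2.2 w r h2 hr hmem
  have hA' := hA v (ball_sub_Sm hr hv)
  rw [hvη, exp_per hl, hη₀] at hA'
  exact hξ (Or.inl hA')

/-- reduction of a real number modulo `T` to `[y, y + T)` -/
theorem red (x y T : ℝ) (hT : 0 < T) : ∃ k : ℤ, y ≤ x + k * T ∧ x + k * T < y + T := by
  refine ⟨-⌊(x - y) / T⌋, ?_, ?_⟩
  · have h := Int.floor_le ((x - y) / T)
    rw [le_div_iff₀ hT] at h
    push_cast
    linarith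
  · have h := Int.lt_floor_add_one ((x - y) / T)
    rw [div_lt_iff₀ hT] at h
    push_cast
    linarith

theorem hLSD (hFDC : Pool.Agent.Helper85.QT.StFDC) (hHN1 : Pool.Agent.Helper85.QT.StHN1)
    (hHN2 : Pool.Agent.Helper85.QT.StHN2) (hANB : Pool.Agent.Helper85.QT.StANB) :
    Pool.Agent.Helper85.QT.StLSD := by
  obtain ⟨C, c, hC, hc, h2⟩ := hHN2
  refine ⟨C, 5 + 34 * C + 2 * C / c, hC, by have : 0 < 2 * C / c := by positivity
                                            linarith, ?_⟩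
  intro Γ _ ρ A B α lam M G m φ C3 hA
  obtain ⟨hl, hG, hφ, hGφ, hmM, _, _, _, _, him, _⟩ := hANB Γ ρ A B α lam M G m φ C3 hA
  have h1a : ∀ w ∈ Sm M, Complex.exp (lam * G w) ∈ A := fun w hw => hA.Gb.mapsTo hw
  have h1b : ∀ w ∈ Sm m, Complex.exp (lam * (fun w => G (φ w)) w) ∈ A :=
    fun w hw => h1a _ (hA.pm hw)
  have hb : ∀ (w : ℂ) (r : ℝ), 2 ≤ r → r ≤ dd m w → ∀ ξ ∈ LS A B, ξ ≠ 0 →
      r / 16 ≤ fd lam (ff lam G φ w) ξ :=
    fun w r hr hrd ξ hξ h0 => far hFDC hHN1 hl hGφ h1b w r hr hrd ξ hξ h0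
  refine ⟨fun w r hr hrd ξ hξ h0 => far hFDC hHN1 hl hG h1a w r hr hrd ξ hξ h0, hb, ?_⟩
  intro hm
  have hCc : 0 < 2 * C / c := by positivity
  have hm5 : 5 ≤ m := by linarith
  have hmC : 34 * C < m := by linarith
  have hmc : 2 * C / c < m := by linarith
  obtain ⟨_, κ, hκ1, hκ2⟩ := h2 m (fun w => G (φ w)) (by linarith) hGφ
  refine ⟨κ, hκ1, ?_, ?_⟩
  · intro w hw
    refine (hκ2 w hw).trans ?_
    rw [div_lt_iff₀ hc] at hmc
    have h3 : 2 * C ≤ Real.exp (c * m) := by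
      have := Real.add_one_le_exp (c * m)
      linarith
    have h4 : Real.exp (-c * m) * Real.exp (c * m) = 1 := by
      rw [← Real.exp_add]
      simp
    have h5 := Real.exp_pos (-c * m)
    nlinarith
  · -- the claim
    have hclaim : ∀ ζ : ℂ, Complex.exp (lam * ζ) ∈ LS A B →
        m / 50 ≤ |ζ.im - (κ.im + m / 2)| := by
      intro ζ hζ
      by_contra hlt
      rw [not_le, abs_lt] at hlt
      have hdd : 12 * m / 25 ≤ dd m (ζ - κ) := by
        unfold dd
        rw [Complex.sub_im]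
        refine le_min (by linarith [hlt.1]) (by linarith [hlt.2])
      have h3 := hb (ζ - κ) (12 * m / 25) (by linarith) hdd _ hζ (Complex.exp_ne_zero _)
      have h4 := ((hFDC lam hl).2.2.1 (G (φ (ζ - κ))) ζ).1 0
      have h5 := hκ1 (ζ - κ) (by linarith)
      have h6 : G (φ (ζ - κ)) - ζ + ((0 : ℤ) : ℂ) * (2 * Real.pi * Complex.I / lam)
          = G (φ (ζ - κ)) - (ζ - κ) - κ := by
        push_cast
        ring
      rw [h6] at h4
      have h7 : fd lam (ff lam G φ (ζ - κ)) (Complex.exp (lam * ζ)) ≤ C := h4.trans h5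
      linarith
    intro ζ hζ
    have hτ : 0 < (2 * Real.pi * Complex.I / lam).im := by
      rw [him]
      have h3 := hA.re
      have h4 : 0 < ‖lam‖ := norm_pos_iff.mpr hl
      have h5 := Real.pi_pos
      positivity
    obtain ⟨τ, hτdef⟩ : ∃ τ : ℂ, τ = 2 * Real.pi * Complex.I / lam := ⟨_, rfl⟩
    rw [← hτdef] at hτ ⊢
    obtain ⟨k, hk1, hk2⟩ := red ζ.im (κ.im + m / 2) τ.im hτ
    have himk : ∀ j : ℤ, (ζ + j * τ).im = ζ.im + j * τ.im := by
      intro j
      simp [Complex.mul_im]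
    have hper : ∀ j : ℤ, m / 50 ≤ |(ζ.im + j * τ.im) - (κ.im + m / 2)| := by
      intro j
      rw [← himk j]
      apply hclaim
      rw [hτdef, exp_per hl]
      exact hζ
    refine ⟨k, ?_, ?_⟩
    · rw [himk]
      have h3 := hper k
      rw [abs_of_nonneg (by linarith)] at h3
      linarith
    · rw [himk]
      have h3 := hper (k - 1)
      push_cast at h3
      rw [abs_of_neg (by nlinarith)] at h3
      nlinarith

end Pool.Agent.Helper40.QT
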