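import Pool.Agent.Helper85.QT.St1

/-!
# Project QT, module PK2: Schur test for the kernel `ch ^ (-s)`

The first part (the Eisenstein series) follows the module EIS of helper60.
-/

set_option autoImplicit false

open MeasureTheory Matrix Set Topology
open scoped ENNReal ComplexConjugate

namespace Pool.Agent.Helper40.QT

open Pool.Agent.Helper85.QT Pool.Agent.Helper86.QA
open Pool.Agent.Helper35.PM (hs)

private theorem hs_pos (g : SL) : 0 < hs (g : Mat) := by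
  have h0 : 0 ≤ hs (g : Mat) := by
    unfold hs
    exact Finset.sum_nonneg (fun i _ => Finset.sum_nonneg (fun j _ => by positivity))
  rcases h0.lt_or_eq with h | h
  · exact h
  · exfalso
    have h1 : ∀ i j, g i j = 0 := by
      intro i j
      have h2 : ‖g i j‖ ^ 2 ≤ hs (g : Mat) := by
        unfold hs
        refine le_trans ?_ (Finset.single_le_sum (f := fun i => ∑ j, ‖(g : Mat) i j‖ ^ 2)
          (fun i _ => Finset.sum_nonneg (fun j _ => by positivity)) (Finset.mem_univ i))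
        exact Finset.single_le_sum (f := fun j => ‖(g : Mat) i j‖ ^ 2)
          (fun j _ => by positivity) (Finset.mem_univ j)
      rw [← h] at h2
      have h3 : ‖g i j‖ = 0 := by nlinarith [norm_nonneg (g i j)]
      exact norm_eq_zero.1 h3
    have h4 := g.det_coe
    rw [Matrix.det_fin_two] at h4
    have e1 : (g : Mat) 0 0 = 0 := h1 0 0
    have e2 : (g : Mat) 0 1 = 0 := h1 0 1
    rw [e1, e2] at h4
    simp at h4

private theorem pp_meas (ξ : ℂ) : Measurable (fun x : Pt => pp x ξ) := by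
  unfold pp
  fun_prop

private theorem bnd (z ξ q p : ℂ) (t : ℝ) (ht : 0 < t) (hp : p ≠ 0) (hq : ξ = q / p) :
    t / (‖z - ξ‖ ^ 2 + t ^ 2) * (1 / ‖p‖) ^ 2 ≤
      t * (2 + (1 + 2 * ‖z‖ ^ 2) / t ^ 2) / (‖p‖ ^ 2 + ‖q‖ ^ 2) := by
  have hp' : 0 < ‖p‖ := norm_pos_iff.2 hp
  have h1 : ‖z - ξ‖ * ‖p‖ = ‖p * z - q‖ := by
    rw [← norm_mul]
    congr 1
    rw [hq]
    field_simp
  have h2 : t / (‖z - ξ‖ ^ 2 + t ^ 2) * (1 / ‖p‖) ^ 2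
      = t / (‖p * z - q‖ ^ 2 + t ^ 2 * ‖p‖ ^ 2) := by
    rw [← h1]
    have h3 : ‖z - ξ‖ ^ 2 + t ^ 2 ≠ 0 := by positivity
    have h4 : (‖z - ξ‖ * ‖p‖) ^ 2 + t ^ 2 * ‖p‖ ^ 2 ≠ 0 := by positivity
    field_simp
  rw [h2]
  have h5 : ‖q‖ ≤ ‖p * z - q‖ + ‖p‖ * ‖z‖ := by
    have : q = p * z - (p * z - q) := by ring
    calc ‖q‖ = ‖p * z - (p * z - q)‖ := by rw [← this]
      _ ≤ ‖p * z‖ + ‖p * z - q‖ := norm_sub_le _ _
      _ = ‖p * z - q‖ + ‖p‖ * ‖z‖ := by rw [norm_mul, add_comm]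
  have h6 : ‖q‖ ^ 2 ≤ 2 * ‖p * z - q‖ ^ 2 + 2 * (‖p‖ ^ 2 * ‖z‖ ^ 2) := by
    have h7 : ‖q‖ ^ 2 ≤ (‖p * z - q‖ + ‖p‖ * ‖z‖) ^ 2 :=
      pow_le_pow_left₀ (norm_nonneg _) h5 2
    nlinarith [sq_nonneg (‖p * z - q‖ - ‖p‖ * ‖z‖)]
  rw [div_le_div_iff₀ (by positivity) (by positivity)]
  have h8 : ‖p‖ ^ 2 + ‖q‖ ^ 2 ≤ (2 + (1 + 2 * ‖z‖ ^ 2) / t ^ 2) *
      (‖p * z - q‖ ^ 2 + t ^ 2 * ‖p‖ ^ 2) := by
    have e : (2 + (1 + 2 * ‖z‖ ^ 2) / t ^ 2) * (‖p * z - q‖ ^ 2 + t ^ 2 * ‖p‖ ^ 2)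
        = 2 * ‖p * z - q‖ ^ 2 + (1 + 2 * ‖z‖ ^ 2) * ‖p‖ ^ 2 + 2 * t ^ 2 * ‖p‖ ^ 2
          + (1 + 2 * ‖z‖ ^ 2) / t ^ 2 * ‖p * z - q‖ ^ 2 := by
      field_simp
      ring
    rw [e]
    have e2 : 0 ≤ 2 * t ^ 2 * ‖p‖ ^ 2 := by positivity
    have e3 : 0 ≤ (1 + 2 * ‖z‖ ^ 2) / t ^ 2 * ‖p * z - q‖ ^ 2 := by positivity
    nlinarith
  calc t * (‖p‖ ^ 2 + ‖q‖ ^ 2)
      ≤ t * ((2 + (1 + 2 * ‖z‖ ^ 2) / t ^ 2) * (‖p * z - q‖ ^ 2 + t ^ 2 * ‖p‖ ^ 2)) :=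
        mul_le_mul_of_nonneg_left h8 ht.le
    _ = t * (2 + (1 + 2 * ‖z‖ ^ 2) / t ^ 2) * (‖p * z - q‖ ^ 2 + t ^ 2 * ‖p‖ ^ 2) := by ring

/-- the Eisenstein series of exponent `s`, an eigenfunction of the kernel `ch ^ (-r)` -/
private theorem series (hACT : StACT) (hCHI : StCHI) (hPOI : StPOI) (hCHV : StCHV)
    (hPD1 : StPD1) (Γ : Type) [Group Γ] [Countable Γ] (ρ : Γ →* SL) (A B : Set ℂ)
    (hKD : KD ρ A B) (s r be : ℝ) (hs0 : 0 ≤ s) (hbe : 0 ≤ be)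
    (hsum : Summable (fun γ : Γ => hs (ρ γ) ^ (-s)))
    (hPK : ∀ g : SL, ∀ x ∈ up, ∫⁻ y, ENNReal.ofReal (ch x y ^ (-r) * (ga g y).2 ^ s) ∂vol =
      ENNReal.ofReal (be * (ga g x).2 ^ s)) :
    ∃ Fs : Pt → ℝ≥0∞, Measurable Fs ∧
    (∀ x ∈ up, 0 < Fs x ∧ Fs x < ∞) ∧ (∀ γ : Γ, ∀ x ∈ up, Fs (au ρ γ x) = Fs x) ∧
    (∀ x ∈ up, ∫⁻ y, ENNReal.ofReal (ch x y ^ (-r)) * Fs y ∂vol = ENNReal.ofReal be * Fs x) := by
  obtain ⟨ξ₀, hξ₀⟩ := hKD.neA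
  obtain ⟨c, hc, hcb⟩ := hPD1 Γ ρ A B hKD {ξ₀} isCompact_singleton
    (by
      rintro _ rfl
      exact Or.inl hξ₀)
  have hup : ∀ (γ : Γ), ∀ x ∈ up, ga (ρ γ) x ∈ up := fun γ x hx => (hACT.1 (ρ γ) x hx).2.1
  have hppos : ∀ (γ : Γ), ∀ x ∈ up, 0 < pp (au ρ γ x) ξ₀ := fun γ x hx =>
    (hPOI.2.1 ξ₀ _ (hup γ x hx)).2
  -- the bound of the terms
  have hterm : ∀ x ∈ up, ∀ γ : Γ, pp (au ρ γ x) ξ₀ ≤
      x.2 * (2 + (1 + 2 * ‖x.1‖ ^ 2) / x.2 ^ 2) / c * (hs (ρ γ⁻¹ : Mat))⁻¹ := by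
    intro x hx γ
    have hx2 : 0 < x.2 := hx
    obtain ⟨hp, hη⟩ := hKD.mpA γ⁻¹ ξ₀ hξ₀
    set p := ρ γ⁻¹ 1 0 * ξ₀ + ρ γ⁻¹ 1 1 with hpdef
    set q := ρ γ⁻¹ 0 0 * ξ₀ + ρ γ⁻¹ 0 1 with hqdef
    obtain ⟨h1, h2⟩ := hCHV.2.1 (ρ γ) (ρ γ⁻¹) ξ₀ hp
    have h3 : ρ γ * ρ γ⁻¹ = 1 := by rw [← map_mul, mul_inv_cancel, map_one]
    rw [h3, hCHV.2.2.2.1] at h1
    rw [h3] at h2
    have h4 : (1 : SL) 1 0 * ξ₀ + (1 : SL) 1 1 = 1 := by simp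
    rw [h4] at h2
    have h5 : ρ γ 1 0 * mb (ρ γ⁻¹) ξ₀ + ρ γ 1 1 = 1 / p := by
      rw [eq_div_iff hp]
      exact h2.symm
    have h6 : ρ γ 1 0 * mb (ρ γ⁻¹) ξ₀ + ρ γ 1 1 ≠ 0 := by
      rw [h5]
      exact one_div_ne_zero hp
    have h7 := hPOI.1 (ρ γ) x (mb (ρ γ⁻¹) ξ₀) hx h6
    rw [← h1, h5] at h7
    have h8 : pp (au ρ γ x) ξ₀ = x.2 / (‖x.1 - mb (ρ γ⁻¹) ξ₀‖ ^ 2 + x.2 ^ 2) * (1 / ‖p‖) ^ 2 := by
      have : pp (au ρ γ x) ξ₀ = pp (ga (ρ γ) x) ξ₀ := rfl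
      rw [this, h7, norm_div, norm_one]
      rfl
    rw [h8]
    refine le_trans (bnd x.1 (mb (ρ γ⁻¹) ξ₀) q p x.2 hx2 hp rfl) ?_
    have h9 := hcb γ⁻¹ ξ₀ rfl
    have h10 : 0 < hs (ρ γ⁻¹ : Mat) := hs_pos _
    have h11 : x.2 * (2 + (1 + 2 * ‖x.1‖ ^ 2) / x.2 ^ 2) / c * (hs (ρ γ⁻¹ : Mat))⁻¹
        = x.2 * (2 + (1 + 2 * ‖x.1‖ ^ 2) / x.2 ^ 2) / (c * hs (ρ γ⁻¹ : Mat)) := by
      rw [← div_eq_mul_inv, div_div]
    rw [h11]
    exact div_le_div_of_nonneg_left (by positivity) (by positivity) h9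
  refine ⟨fun x => ∑' γ : Γ, ENNReal.ofReal (pp (au ρ γ x) ξ₀ ^ s), ?_, ?_, ?_, ?_⟩
  · refine Measurable.tsum (fun γ => ?_)
    have h1 : Measurable (ga (ρ γ)) := (hACT.2.2.2.1 (ρ γ)).1
    exact ENNReal.measurable_ofReal.comp (((pp_meas ξ₀).comp h1).pow_const s)
  · intro x hx
    constructor
    · refine lt_of_lt_of_le ?_ (ENNReal.le_tsum (1 : Γ))
      rw [ENNReal.ofReal_pos]
      exact Real.rpow_pos_of_pos (hppos 1 x hx) s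
    · have hx2 : 0 < x.2 := hx
      set M := x.2 * (2 + (1 + 2 * ‖x.1‖ ^ 2) / x.2 ^ 2) / c with hM
      have hM0 : 0 ≤ M := by positivity
      have hsum2 : Summable (fun γ : Γ => M ^ s * hs (ρ γ⁻¹ : Mat) ^ (-s)) := by
        refine Summable.mul_left _ ?_
        exact ((Equiv.inv Γ).summable_iff (f := fun γ : Γ => hs (ρ γ : Mat) ^ (-s))).2 hsum
      refine lt_of_le_of_lt (ENNReal.tsum_le_tsum (fun γ => ?_)) hsum2.tsum_ofReal_lt_top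
      apply ENNReal.ofReal_le_ofReal
      have h10 : 0 < hs (ρ γ⁻¹ : Mat) := hs_pos _
      calc pp (au ρ γ x) ξ₀ ^ s ≤ (M * (hs (ρ γ⁻¹ : Mat))⁻¹) ^ s :=
            Real.rpow_le_rpow (hppos γ x hx).le (hterm x hx γ) hs0
        _ = M ^ s * hs (ρ γ⁻¹ : Mat) ^ (-s) := by
            rw [Real.mul_rpow hM0 (inv_nonneg.2 h10.le), Real.inv_rpow h10.le,
              Real.rpow_neg h10.le]
  · intro γ' x hx
    have h1 : ∀ γ : Γ, au ρ γ (au ρ γ' x) = au ρ (γ * γ') x := by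
      intro γ
      unfold au
      rw [map_mul, hACT.2.1 _ _ x hx]
    simp only [h1]
    exact (Equiv.mulRight γ').tsum_eq (fun γ => ENNReal.ofReal (pp (au ρ γ x) ξ₀ ^ s))
  · intro x hx
    have key : ∀ γ : Γ, ∀ y ∈ up, pp (au ρ γ y) ξ₀ = (ga (gi ξ₀ * ρ γ) y).2 := by
      intro γ y hy
      rw [hACT.2.1 _ _ y hy, (hPOI.2.1 ξ₀ _ (hup γ y hy)).1]
      rfl
    have hmeas : ∀ γ : Γ, Measurable (fun y : Pt => ENNReal.ofReal (pp (au ρ γ y) ξ₀ ^ s)) := by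
      intro γ
      have h1 : Measurable (ga (ρ γ)) := (hACT.2.2.2.1 (ρ γ)).1
      exact ENNReal.measurable_ofReal.comp (((pp_meas ξ₀).comp h1).pow_const s)
    have hkm : Measurable (fun y : Pt => ch x y ^ (-r)) := by
      unfold ch
      fun_prop
    simp only [← ENNReal.tsum_mul_left]
    have hm2 : ∀ γ : Γ, AEMeasurable
        (fun y : Pt => ENNReal.ofReal (ch x y ^ (-r)) * ENNReal.ofReal (pp (au ρ γ y) ξ₀ ^ s)) vol :=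
      fun γ => (hkm.ennreal_ofReal.mul (hmeas γ)).aemeasurable
    rw [lintegral_tsum hm2]
    refine tsum_congr (fun γ => ?_)
    have h1 : ∫⁻ y, ENNReal.ofReal (ch x y ^ (-r)) * ENNReal.ofReal (pp (au ρ γ y) ξ₀ ^ s) ∂vol
        = ∫⁻ y, ENNReal.ofReal (ch x y ^ (-r) * (ga (gi ξ₀ * ρ γ) y).2 ^ s) ∂vol := by
      refine lintegral_congr_ae ?_
      filter_upwards [ae_up] with y hy
      have hch0 : 0 ≤ ch x y ^ (-r) :=
        Real.rpow_nonneg (zero_le_one.trans (hCHI.1 x hx y hy).1) _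
      rw [← ENNReal.ofReal_mul hch0, key γ y hy]
    rw [h1, hPK _ x hx, key γ x hx, ENNReal.ofReal_mul hbe]

/-- weighted AM-GM in the extended nonnegative reals -/
private lemma amgm {a b p q : ℝ≥0∞} (ha : a ≠ ∞) (hb : b ≠ ∞) (hp0 : p ≠ 0) (hp : p ≠ ∞)
    (hq0 : q ≠ 0) (hq : q ≠ ∞) : 2 * (a * b) ≤ a ^ 2 * (q / p) + b ^ 2 * (p / q) := by
  lift a to NNReal using ha
  lift b to NNReal using hb
  lift p to NNReal using hp
  lift q to NNReal using hq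
  have hp0' : p ≠ 0 := by exact_mod_cast hp0
  have hq0' : q ≠ 0 := by exact_mod_cast hq0
  rw [← ENNReal.coe_div hp0', ← ENNReal.coe_div hq0']
  have h : 2 * (a * b) ≤ a ^ 2 * (q / p) + b ^ 2 * (p / q) := by
    rw [← NNReal.coe_le_coe]
    push_cast
    have h1 : (0 : ℝ) < p := NNReal.coe_pos.2 (pos_iff_ne_zero.2 hp0')
    have h2 : (0 : ℝ) < q := NNReal.coe_pos.2 (pos_iff_ne_zero.2 hq0')
    have h3 : (a : ℝ) ^ 2 * (q / p) + (b : ℝ) ^ 2 * (p / q) =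
        ((a : ℝ) ^ 2 * q ^ 2 + (b : ℝ) ^ 2 * p ^ 2) / (p * q) := by
      field_simp
    rw [h3, le_div_iff₀ (mul_pos h1 h2)]
    nlinarith [sq_nonneg ((a : ℝ) * q - b * p)]
  exact_mod_cast h

/-- additivity of the double integral -/
private lemma J_add (D : Set Pt) {h h' : Pt → Pt → ℝ≥0∞}
    (hm : Measurable (fun p : Pt × Pt => h p.1 p.2)) :
    ∫⁻ x in D, ∫⁻ y, (h x y + h' x y) ∂vol ∂vol =
      ∫⁻ x in D, ∫⁻ y, h x y ∂vol ∂vol + ∫⁻ x in D, ∫⁻ y, h' x y ∂vol ∂vol := by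
  rw [← lintegral_add_left (Measurable.lintegral_prod_right' hm)]
  refine lintegral_congr fun x => ?_
  exact lintegral_add_left (hm.comp measurable_prodMk_left) _

/-- monotonicity of the double integral -/
private lemma J_mono {D : Set Pt} (hD : MeasurableSet D) (hDu : D ⊆ up) {h h' : Pt → Pt → ℝ≥0∞}
    (hle : ∀ x ∈ up, ∀ y ∈ up, h x y ≤ h' x y) :
    ∫⁻ x in D, ∫⁻ y, h x y ∂vol ∂vol ≤ ∫⁻ x in D, ∫⁻ y, h' x y ∂vol ∂vol := by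
  refine setLIntegral_mono' hD fun x hx => ?_
  exact lintegral_mono_ae (ae_up.mono fun y hy => hle x (hDu hx) y hy)

private lemma J_congr {D : Set Pt} (hD : MeasurableSet D) (hDu : D ⊆ up)
    {h h' : Pt → Pt → ℝ≥0∞} (hle : ∀ x ∈ up, ∀ y ∈ up, h x y = h' x y) :
    ∫⁻ x in D, ∫⁻ y, h x y ∂vol ∂vol = ∫⁻ x in D, ∫⁻ y, h' x y ∂vol ∂vol :=
  le_antisymm (J_mono hD hDu fun x hx y hy => (hle x hx y hy).le)
    (J_mono hD hDu fun x hx y hy => (hle x hx y hy).ge)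

/-- weighted AM-GM, also for infinite values of `a`, `b` -/
private lemma amgm' {a b p q : ℝ≥0∞} (hp0 : p ≠ 0) (hp : p ≠ ∞)
    (hq0 : q ≠ 0) (hq : q ≠ ∞) : 2 * (a * b) ≤ a ^ 2 * (q / p) + b ^ 2 * (p / q) := by
  by_cases ha : a = ∞
  · have h1 : q / p ≠ 0 := ENNReal.div_ne_zero.2 ⟨hq0, hp⟩
    have h2 : a ^ 2 * (q / p) = ∞ := by
      rw [ha, ENNReal.top_pow two_ne_zero, ENNReal.top_mul h1]
    rw [h2, top_add]
    exact le_top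
  by_cases hb : b = ∞
  · have h1 : p / q ≠ 0 := ENNReal.div_ne_zero.2 ⟨hp0, hq⟩
    have h2 : b ^ 2 * (p / q) = ∞ := by
      rw [hb, ENNReal.top_pow two_ne_zero, ENNReal.top_mul h1]
    rw [h2, add_top]
    exact le_top
  exact amgm ha hb hp0 hp hq0 hq

private lemma half_le {a b : ℝ≥0∞} (h : a + a ≤ b + b) : a ≤ b := by
  by_contra hcon
  have h1 : b < a := not_le.1 hcon
  exact absurd h (not_le.2 (ENNReal.add_lt_add h1 h1))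

/-- MODULE PK2. -/
theorem hPK2 (hACT : Pool.Agent.Helper86.QA.StACT) (hCHI : Pool.Agent.Helper86.QA.StCHI)
    (hPOI : Pool.Agent.Helper86.QA.StPOI) (hCHV : Pool.Agent.Helper86.QA.StCHV)
    (hSW0 : Pool.Agent.Helper86.QA.StSW0) (hACU : Pool.Agent.Helper86.QA.StACU)
    (hPD1 : Pool.Agent.Helper86.QA.StPD1) (hPK1 : Pool.Agent.Helper85.QT.StPK1) :
    Pool.Agent.Helper85.QT.StPK2 := by
  intro Γ _ ρ A B hKD s σ hσ1 hσs hs2 hsum D hD φ hφm hφi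
  obtain ⟨hcount, hact, -⟩ := hACU Γ ρ A B hKD
  obtain ⟨be, hbe, hbe1, hPK⟩ := hPK1 s σ hσ1 hσs hs2
  have := hcount
  obtain ⟨Fs, hFm, hFpos, hFinv, hFe⟩ := series hACT hCHI hPOI hCHV hPD1 Γ ρ A B hKD σ s be
    (by linarith) hbe hsum hPK
  obtain ⟨hch, hkinv, -⟩ := hCHI
  have hDm := hD.mD
  have hDu := hD.sub
  obtain ⟨k, hk⟩ : ∃ k : Pt → Pt → ℝ≥0∞, k = fun x y => ENNReal.ofReal (ch x y ^ (-s)) := ⟨_, rfl⟩
  have hkE : ∀ x y, ENNReal.ofReal (ch x y ^ (-s)) = k x y := fun x y => by rw [hk]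
  have hkm' : Measurable (fun p : Pt × Pt => k p.1 p.2) := by
    rw [hk]
    unfold ch
    fun_prop
  have hksym : ∀ x ∈ up, ∀ y ∈ up, k x y = k y x := by
    intro x hx y hy
    rw [← hkE, ← hkE, (hch x hx y hy).2.1]
  have hkinv' : ∀ γ : Γ, ∀ x ∈ up, ∀ y ∈ up, k (au ρ γ x) (au ρ γ y) = k x y := by
    intro γ x hx y hy
    rw [← hkE, ← hkE]
    unfold au
    rw [(hkinv (ρ γ) x hx y hy).1]
  simp only [hkE] at hFe ⊢
  obtain ⟨I, hIdef⟩ : ∃ I : ℝ≥0∞, I = ∫⁻ x in D, φ x ^ 2 ∂vol := ⟨_, rfl⟩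
  rw [← hIdef]
  -- exchange of the variables
  have hex : ∀ h : Pt → Pt → ℝ≥0∞, Measurable (fun p : Pt × Pt => h p.1 p.2) →
      (∀ γ : Γ, ∀ x ∈ up, ∀ y ∈ up, h (au ρ γ x) (au ρ γ y) = h x y) →
      ∫⁻ x in D, ∫⁻ y, h x y ∂vol ∂vol = ∫⁻ x in D, ∫⁻ y, h y x ∂vol ∂vol := by
    intro h hm hi
    rw [hSW0 Γ Pt Pt (au ρ) (au ρ) up D up D vol vol h hact hact hD hD hm hi]
    exact lintegral_lintegral_swap hm.aemeasurable
  have hm3 : Measurable (fun p : Pt × Pt => k p.1 p.2 * (φ p.1 ^ 2 * (Fs p.2 / Fs p.1))) :=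
    hkm'.mul (((hφm.comp measurable_fst).pow_const 2).mul
      ((hFm.comp measurable_snd).div (hFm.comp measurable_fst)))
  have hm4 : Measurable (fun p : Pt × Pt => k p.1 p.2 * (φ p.2 ^ 2 * (Fs p.1 / Fs p.2))) :=
    hkm'.mul (((hφm.comp measurable_snd).pow_const 2).mul
      ((hFm.comp measurable_fst).div (hFm.comp measurable_snd)))
  have hm5 : Measurable (fun p : Pt × Pt => k p.1 p.2 * φ p.1 * φ p.2) :=
    (hkm'.mul (hφm.comp measurable_fst)).mul (hφm.comp measurable_snd)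
  have hkmx : ∀ x, Measurable (fun y => k x y) := fun x => hkm'.comp measurable_prodMk_left
  have hA3 : ∫⁻ x in D, ∫⁻ y, k x y * (φ x ^ 2 * (Fs y / Fs x)) ∂vol ∂vol =
      ENNReal.ofReal be * I := by
    have h1 : ∀ x ∈ D, ∫⁻ y, k x y * (φ x ^ 2 * (Fs y / Fs x)) ∂vol =
        ENNReal.ofReal be * φ x ^ 2 := by
      intro x hx
      have hFx := hFpos x (hDu hx)
      have h2 : ∀ y, k x y * (φ x ^ 2 * (Fs y / Fs x)) =
          (k x y * Fs y) * (φ x ^ 2 * (Fs x)⁻¹) := by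
        intro y
        rw [div_eq_mul_inv]
        ring
      simp_rw [h2]
      rw [lintegral_mul_const (φ x ^ 2 * (Fs x)⁻¹)
        (show Measurable (fun y => k x y * Fs y) from (hkmx x).mul hFm), hFe x (hDu hx)]
      calc ENNReal.ofReal be * Fs x * (φ x ^ 2 * (Fs x)⁻¹)
          = ENNReal.ofReal be * φ x ^ 2 * (Fs x * (Fs x)⁻¹) := by ring
        _ = ENNReal.ofReal be * φ x ^ 2 := by
          rw [ENNReal.mul_inv_cancel hFx.1.ne' hFx.2.ne, mul_one]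
    rw [setLIntegral_congr_fun hDm h1, lintegral_const_mul _ (hφm.pow_const 2), hIdef]
  have hA4 : ∫⁻ x in D, ∫⁻ y, k x y * (φ y ^ 2 * (Fs x / Fs y)) ∂vol ∂vol =
      ENNReal.ofReal be * I := by
    rw [hex (fun x y => k x y * (φ y ^ 2 * (Fs x / Fs y))) hm4 (fun γ x hx y hy => by
      simp only [hkinv' γ x hx y hy, hφi γ y hy, hFinv γ x hx, hFinv γ y hy]), ← hA3]
    exact J_congr hDm hDu fun x hx y hy => by rw [hksym y hy x hx]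
  have hpt : ∀ x ∈ up, ∀ y ∈ up, k x y * φ x * φ y + k x y * φ x * φ y ≤
      k x y * (φ x ^ 2 * (Fs y / Fs x)) + k x y * (φ y ^ 2 * (Fs x / Fs y)) := by
    intro x hx y hy
    have hFx := hFpos x hx
    have hFy := hFpos y hy
    have h1 : 2 * (φ x * φ y) ≤ φ x ^ 2 * (Fs y / Fs x) + φ y ^ 2 * (Fs x / Fs y) :=
      amgm' hFx.1.ne' hFx.2.ne hFy.1.ne' hFy.2.ne
    calc k x y * φ x * φ y + k x y * φ x * φ y = k x y * (2 * (φ x * φ y)) := by ring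
      _ ≤ k x y * (φ x ^ 2 * (Fs y / Fs x) + φ y ^ 2 * (Fs x / Fs y)) := by gcongr
      _ = _ := by ring
  have h5 := J_mono hDm hDu hpt
  rw [J_add D hm5, J_add D hm3, hA3, hA4] at h5
  refine (half_le h5).trans ?_
  gcongr

end Pool.Agent.Helper40.QT
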