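import Pool.Agent.Helper85.QT.St1

/-!
# Project QT, module SB0: algebra of Hermitian forms
-/

set_option autoImplicit false

open MeasureTheory Matrix Set Topology
open scoped ENNReal ComplexConjugate

namespace Pool.Agent.Helper40.QT

open Pool.Agent.Helper85.QT Pool.Agent.Helper86.QA

/-- the value of the form `H` at the vector `(x, y)` -/
private def qv (H : Mat) (x y : ℂ) : ℂ :=
  conj x * H 0 0 * x + conj x * H 0 1 * y + conj y * H 1 0 * x + conj y * H 1 1 * y

private lemma qf_eq (H : Mat) (ξ : ℂ) : qf H ξ = (qv H ξ 1).re := by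
  unfold qf qv
  simp

private lemma qv_conj (H B : Mat) (x y : ℂ) :
    qv (Bᴴ * H * B) x y = qv H (B 0 0 * x + B 0 1 * y) (B 1 0 * x + B 1 1 * y) := by
  simp only [qv, Matrix.mul_apply, Fin.sum_univ_two, conjTranspose_apply, RCLike.star_def,
    map_add, map_mul]
  ring

private lemma qv_smul (H : Mat) (s x y : ℂ) :
    qv H (s * x) (s * y) = ((‖s‖ ^ 2 : ℝ) : ℂ) * qv H x y := by
  have h : ((‖s‖ ^ 2 : ℝ) : ℂ) = s * conj s := by
    rw [Complex.mul_conj, Complex.normSq_eq_norm_sq]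
  rw [h]
  simp only [qv, map_mul]
  ring

private lemma inv_entries (g : SL) : ((g⁻¹ : SL) : Mat) 0 0 = g 1 1 ∧
    ((g⁻¹ : SL) : Mat) 0 1 = -g 0 1 ∧ ((g⁻¹ : SL) : Mat) 1 0 = -g 1 0 ∧
    ((g⁻¹ : SL) : Mat) 1 1 = g 0 0 := by
  rw [Matrix.SpecialLinearGroup.coe_inv, Matrix.adjugate_fin_two]
  simp

private lemma det_one (g : SL) : g 0 0 * g 1 1 - g 0 1 * g 1 0 = 1 := by
  have := g.det_coe
  rwa [Matrix.det_fin_two] at this

private lemma part1 (H : Mat) (x : Pt) (hx : x ∈ up) :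
    2 * x.2 * hf H x = -(qf H x.1 + (H 0 0).re * x.2 ^ 2) := by
  have ht : (0 : ℝ) < x.2 := hx
  have ht' : (x.2 : ℂ) ≠ 0 := by exact_mod_cast ht.ne'
  have h1 : (x.2 : ℂ) * (H * Xm x).trace =
      qv H x.1 1 + H 0 0 * (x.2 : ℂ) ^ 2 := by
    have h2 : ((‖x.1‖ : ℝ) : ℂ) ^ 2 = x.1 * conj x.1 := by
      rw [Complex.mul_conj, Complex.normSq_eq_norm_sq]
      push_cast
      ring
    simp only [Xm, qv, Matrix.trace_fin_two, Matrix.mul_apply, Fin.sum_univ_two, Matrix.of_apply,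
      Matrix.cons_val', Matrix.cons_val_zero, Matrix.cons_val_one, Matrix.cons_val_fin_one, map_one]
    push_cast
    rw [h2]
    field_simp
    ring
  have h3 := congrArg Complex.re h1
  rw [Complex.re_ofReal_mul, Complex.add_re] at h3
  have h4 : (H 0 0 * (x.2 : ℂ) ^ 2).re = (H 0 0).re * x.2 ^ 2 := by
    rw [← Complex.ofReal_pow, Complex.re_mul_ofReal]
  rw [h4] at h3
  rw [qf_eq]
  unfold hf
  linarith

private lemma bH00 (c : ℂ) (r : ℝ) : bH c r 0 0 = ((1 / r : ℝ) : ℂ) := by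
  simp [bH]

private lemma qf_bH (c : ℂ) {r : ℝ} (hr : 0 < r) (ξ : ℂ) :
    qf (bH c r) ξ = (‖ξ - c‖ ^ 2 - r ^ 2) / r := by
  have hr' : (r : ℂ) ≠ 0 := by exact_mod_cast hr.ne'
  have h1 : qv (bH c r) ξ 1 = (((‖ξ - c‖ ^ 2 - r ^ 2) / r : ℝ) : ℂ) := by
    have h2 : ((‖ξ - c‖ : ℝ) : ℂ) ^ 2 = (ξ - c) * conj (ξ - c) := by
      rw [Complex.mul_conj, Complex.normSq_eq_norm_sq]
      push_cast
      ring
    have h3 : ((‖c‖ : ℝ) : ℂ) ^ 2 = c * conj c := by
      rw [Complex.mul_conj, Complex.normSq_eq_norm_sq]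
      push_cast
      ring
    simp only [qv, bH, Matrix.of_apply, Matrix.cons_val', Matrix.cons_val_zero,
      Matrix.cons_val_one, Matrix.cons_val_fin_one, map_one]
    push_cast
    rw [h2, h3, map_sub]
    field_simp
    ring
  rw [qf_eq, h1, Complex.ofReal_re]

/-- MODULE SB0. -/
theorem hSB0 (hACT : Pool.Agent.Helper86.QA.StACT) : Pool.Agent.Helper85.QT.StSB0 := by
  refine ⟨fun H x _ hx => part1 H x hx, ?_, ?_⟩
  · intro c r hr
    have hr' : (r : ℂ) ≠ 0 := by exact_mod_cast hr.ne'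
    refine ⟨?_, ?_, ?_, qf_bH c hr, ?_⟩
    · ext i j
      fin_cases i <;> fin_cases j <;> simp [bH, conjTranspose_apply]
    · have h3 : ((‖c‖ : ℝ) : ℂ) ^ 2 = c * conj c := by
        rw [Complex.mul_conj, Complex.normSq_eq_norm_sq]
        push_cast
        ring
      rw [Matrix.det_fin_two]
      simp only [bH, Matrix.of_apply, Matrix.cons_val', Matrix.cons_val_zero,
        Matrix.cons_val_one, Matrix.cons_val_fin_one]
      push_cast
      rw [h3]
      field_simp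
      ring
    · rw [bH00, Complex.ofReal_re]
    · intro x hx
      have ht : (0 : ℝ) < x.2 := hx
      have h1 := part1 (bH c r) x hx
      rw [qf_bH c hr, bH00, Complex.ofReal_re] at h1
      have h2 : hf (bH c r) x =
          -((‖x.1 - c‖ ^ 2 - r ^ 2) / r + 1 / r * x.2 ^ 2) / (2 * x.2) := by
        rw [← h1]
        field_simp
      rw [h2]
      field_simp
      ring
  · intro H g hH hdet
    obtain ⟨e00, e01, e10, e11⟩ := inv_entries g
    have hd := det_one g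
    refine ⟨isHermitian_conjTranspose_mul_mul _ hH, ?_, ?_, ?_, ?_, ?_⟩
    · rw [Matrix.det_mul, Matrix.det_mul, Matrix.det_conjTranspose,
        Matrix.SpecialLinearGroup.det_coe, hdet]
      simp
    · intro x hx
      have h1 := (hACT.1 g x hx).2.2
      unfold hf
      rw [h1]
      have h2 : ((g⁻¹ : SL) : Mat) * (g : Mat) = 1 := by
        rw [← Matrix.SpecialLinearGroup.coe_mul, inv_mul_cancel, Matrix.SpecialLinearGroup.coe_one]
      have h3 : ((g⁻¹ : SL) : Mat)ᴴ * H * ((g⁻¹ : SL) : Mat) * ((g : Mat) * Xm x * (g : Mat)ᴴ) =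
          ((g⁻¹ : SL) : Mat)ᴴ * (H * Xm x) * (g : Mat)ᴴ := by
        calc ((g⁻¹ : SL) : Mat)ᴴ * H * ((g⁻¹ : SL) : Mat) * ((g : Mat) * Xm x * (g : Mat)ᴴ)
            = ((g⁻¹ : SL) : Mat)ᴴ * H * (((g⁻¹ : SL) : Mat) * (g : Mat)) * Xm x * (g : Mat)ᴴ := by
              simp only [Matrix.mul_assoc]
          _ = _ := by
              rw [h2]
              simp only [Matrix.mul_assoc, Matrix.one_mul]
      rw [h3, Matrix.trace_mul_comm, ← Matrix.mul_assoc, ← Matrix.conjTranspose_mul, h2,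
        Matrix.conjTranspose_one, Matrix.one_mul]
    · intro ξ hξ
      rw [qf_eq, qf_eq, ← Complex.re_mul_ofReal, mul_comm, ← qv_smul, qv_conj, e00, e01, e10, e11]
      have h4 : (g 1 0 * ξ + g 1 1) * mb g ξ = g 0 0 * ξ + g 0 1 := by
        unfold mb
        field_simp
      rw [h4]
      congr 2
      · linear_combination ξ * hd
      · linear_combination hd
    · intro hc
      have h5 : (((g⁻¹ : SL) : Mat)ᴴ * H * ((g⁻¹ : SL) : Mat)) 0 0 =
          qv (((g⁻¹ : SL) : Mat)ᴴ * H * ((g⁻¹ : SL) : Mat)) 1 0 := by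
        simp [qv]
      have h6 : qv H (g 1 1) (-g 1 0) =
          ((‖g 1 0‖ ^ 2 : ℝ) : ℂ) * qv H (-(g 1 1 / g 1 0)) 1 := by
        rw [← norm_neg (g 1 0), ← qv_smul]
        congr 1
        · field_simp
        · ring
      rw [h5, qv_conj, e00, e01, e10, e11]
      simp only [mul_one, mul_zero, add_zero]
      rw [h6, Complex.re_ofReal_mul, qf_eq]
    · intro hc
      have h5 : (((g⁻¹ : SL) : Mat)ᴴ * H * ((g⁻¹ : SL) : Mat)) 0 0 =
          qv (((g⁻¹ : SL) : Mat)ᴴ * H * ((g⁻¹ : SL) : Mat)) 1 0 := by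
        simp [qv]
      have h6 : qv H (g 1 1) 0 = ((‖g 1 1‖ ^ 2 : ℝ) : ℂ) * H 0 0 := by
        have h7 := qv_smul H (g 1 1) 1 0
        rw [mul_one, mul_zero] at h7
        rw [h7]
        simp [qv]
      rw [h5, qv_conj, e00, e01, e10, e11, hc]
      simp only [mul_one, mul_zero, add_zero, neg_zero]
      rw [h6, Complex.re_ofReal_mul]

end Pool.Agent.Helper40.QT
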