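import Pool.Agent.Helper88.QT.St4

/-!
# Project QT, module BRG: the crossings counted along the geodesic are crossings of the segment
-/

set_option autoImplicit false

open MeasureTheory Matrix Set Topology Filter
open scoped ENNReal ComplexConjugate

namespace Pool.Agent.Helper40.QT

open Pool.Agent.Helper88.QT
open Pool.Agent.Helper86.QA (KD ActOn FDOn CF ab rX Pt up ga mb ch oo SL)
open Pool.Agent.Helper85.QT (Ann Cls Cof Mlt Fm th Bnd DTub EBal Crs cen pq gp Tg TT fd)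

theorem brg_om_nonneg (lam : ℂ) (m : ℝ) (x y : ℂ) :
    0 ≤ Pool.Agent.Helper88.QT.om lam m x y := by
  unfold Pool.Agent.Helper88.QT.om
  exact mul_nonneg (le_min zero_le_one (by positivity)) (by positivity)

theorem brg_om_symm (hFDM : Pool.Agent.Helper88.QT.StFDM) {lam : ℂ} (hlam : lam ≠ 0) (m : ℝ)
    {x y : ℂ} (hx : x ≠ 0) (hy : y ≠ 0) :
    Pool.Agent.Helper85.QT.om lam m y x = Pool.Agent.Helper88.QT.om lam m x y := by
  unfold Pool.Agent.Helper85.QT.om Pool.Agent.Helper88.QT.om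
  rw [((hFDM lam hlam).1 y x hy hx).1]
  have h : |Real.log (‖y‖ / ‖x‖)| = |Real.log (‖x‖ / ‖y‖)| := by
    rw [← inv_div, Real.log_inv, abs_neg]
  rw [h]

theorem hBRG (hFDM : Pool.Agent.Helper88.QT.StFDM) (hGPM : Pool.Agent.Helper88.QT.StGPM)
    (hINT : Pool.Agent.Helper88.QT.StINT) (hTGF : Pool.Agent.Helper85.QT.StTGF) :
    Pool.Agent.Helper88.QT.StBRG := by
  intro Γ _ ρ A B α lam M G m φ C3 hA hl a b u l hadm
  have hlam : lam ≠ 0 := by
    intro h
    have h1 := hA.re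
    rw [h] at h1
    simp at h1
  have hfin := ((hINT Γ ρ A B α lam M G m φ C3 hA hl).2 a b u (u + l) hadm).1
  have hoi : ∀ i, 0 ≤ oi ρ α lam m i a b := fun i => brg_om_nonneg _ _ _ _
  have hOm : Om ρ α lam m a b u (u + l) = ∑ i ∈ hfin.toFinset, oi ρ α lam m i a b :=
    finsum_mem_eq_finite_toFinset_sum _ hfin
  constructor
  · rw [hOm]
    exact Finset.sum_nonneg fun i _ => hoi i
  · classical
    rw [hOm, ENNReal.ofReal_sum_of_nonneg (fun i _ => hoi i)]
    have hle : ∀ q : Γ ⧸ Subgroup.zpowers α, (if Crs ρ lam cz b a q.out ∧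
        cen ρ q.out b a ∈ Ico (-(u + l)) (-(u + l) + l) then
      ENNReal.ofReal (Pool.Agent.Helper85.QT.om lam m (mb (ρ q.out⁻¹) b) (mb (ρ q.out⁻¹) a))
      else 0) ≤ (if q ∈ hfin.toFinset then ENNReal.ofReal (oi ρ α lam m q a b) else 0) := by
      intro q
      split_ifs with h1 h2 h2
      · -- both
        obtain ⟨pa1, pa2⟩ := hadm.ra (q.out)⁻¹
        obtain ⟨pb1, pb2⟩ := hadm.rb (q.out)⁻¹
        have ha0 : mb (ρ q.out⁻¹) a ≠ 0 := div_ne_zero pa2 pa1
        have hb0 : mb (ρ q.out⁻¹) b ≠ 0 := div_ne_zero pb2 pb1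
        rw [brg_om_symm hFDM hlam m ha0 hb0]
        exact le_refl _
      · exfalso
        apply h2
        rw [Set.Finite.mem_toFinset]
        obtain ⟨⟨v, hv⟩, hc1, hc2⟩ := h1
        obtain ⟨pa1, pa2⟩ := hadm.ra (q.out)⁻¹
        obtain ⟨pb1, pb2⟩ := hadm.rb (q.out)⁻¹
        have hpa : pq ρ q.out a ≠ 0 := mul_ne_zero pa2 pa1
        have hpb : pq ρ q.out b ≠ 0 := mul_ne_zero pb2 pb1
        have h4 := (hTGF Γ ρ lam hlam q.out b a hadm.ne.symm hpb hpa).2.2.2.1
          (cen ρ q.out b a) v (by rw [sub_self, abs_zero]; exact abs_nonneg _)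
        have h5 := (hGPM.1 b a (cen ρ q.out b a) 0 hadm.ne.symm).2.2
        rw [h5] at h4
        refine ⟨-cen ρ q.out b a, ⟨by linarith, by linarith⟩, ?_⟩
        exact lt_of_lt_of_le hv h4
      · exact bot_le
      · exact le_refl _
    refine le_trans (ENNReal.tsum_le_tsum hle) (le_of_eq ?_)
    rw [tsum_eq_sum (s := hfin.toFinset) (fun q hq => if_neg hq)]
    exact Finset.sum_congr rfl fun q hq => if_pos hq

end Pool.Agent.Helper40.QT
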