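import Pool.Agent.Helper88.QT.St2
import Pool.Agent.Helper85.QT.St1

/-!
# Project QT, module PSF: the orbital series is finite
-/

set_option autoImplicit false

open MeasureTheory Matrix Set Topology
open scoped ENNReal ComplexConjugate

namespace Pool.Agent.Helper40.QT

open Pool.Agent.Helper88.QT Pool.Agent.Helper85.QT Pool.Agent.Helper86.QA
open Pool.Agent.Helper35.PM (hs)

theorem Xm_oo : Xm oo = 1 := by
  ext i j
  fin_cases i <;> fin_cases j <;> simp [Xm, oo]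

theorem oo_up : oo ∈ up := by
  show (0 : ℝ) < 1
  norm_num

theorem trace_hs (g : SL) : (((g : Mat) * (g : Mat)ᴴ).trace).re = hs (g : Mat) := by
  simp only [Matrix.trace, Matrix.diag, Matrix.mul_apply, Matrix.conjTranspose_apply,
    Fin.sum_univ_two, hs, Complex.add_re]
  have h : ∀ z : ℂ, (z * star z).re = ‖z‖ ^ 2 := by
    intro z
    rw [Complex.star_def, Complex.mul_conj, Complex.normSq_eq_norm_sq]
    exact Complex.ofReal_re _
  rw [h, h, h, h]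

theorem hs_eq (hACT : StACT) (hCHI : StCHI) (g : SL) :
    hs (g : Mat) = 2 * ch oo (ga g oo) := by
  obtain ⟨_, hup, hX⟩ := hACT.1 g oo oo_up
  have h := (hCHI.1 oo oo_up _ hup).2.2.2
  rw [h, hX, Xm_oo, inv_one, one_mul, mul_one, trace_hs]

theorem ch_lower (hACT : StACT) (hCHI : StCHI) (g : SL) {x y : Pt} (hx : x ∈ up)
    (hy : y ∈ up) :
    hs (g : Mat) ≤ 8 * ch oo x * ch y oo * ch x (ga g y) := by
  have hgo := (hACT.1 g oo oo_up).2.1
  have hgy := (hACT.1 g y hy).2.1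
  have h1 := hCHI.2.2.1 oo oo_up x hx _ hgo
  have h2 := hCHI.2.2.1 x hx _ hgy _ hgo
  have h3 := (hCHI.2.1 g y hy oo oo_up).1
  have h4 := (hCHI.1 oo oo_up x hx).1
  rw [h3] at h2
  rw [hs_eq hACT hCHI]
  have h5 : 2 * ch oo x * ch x (ga g oo)
      ≤ 2 * ch oo x * (2 * ch x (ga g y) * ch y oo) :=
    mul_le_mul_of_nonneg_left h2 (by linarith)
  nlinarith

theorem hPSF (hACT : Pool.Agent.Helper86.QA.StACT) (hCHI : Pool.Agent.Helper86.QA.StCHI) :
    Pool.Agent.Helper88.QT.StPSF := by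
  intro Γ _ ρ s hs0 hsum x hx y hy
  obtain ⟨K, hK⟩ : ∃ K : ℝ, K = 8 * ch oo x * ch y oo := ⟨_, rfl⟩
  have hKpos : 0 < K := by
    have h1 := (hCHI.1 oo oo_up x hx).1
    have h2 := (hCHI.1 y hy oo oo_up).1
    rw [hK]
    positivity
  have hbd : ∀ γ : Γ, ch x (au ρ γ y) ^ (-s) ≤ K ^ s * hs (ρ γ : Mat) ^ (-s) := by
    intro γ
    have hgy := (hACT.1 (ρ γ) y hy).2.1
    have h1 : 1 ≤ ch x (ga (ρ γ) y) := (hCHI.1 x hx _ hgy).1
    have h2 := ch_lower hACT hCHI (ρ γ) hx hy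
    rw [← hK] at h2
    have h3 : 0 < hs (ρ γ : Mat) := by
      rw [hs_eq hACT hCHI]
      have := (hCHI.1 oo oo_up _ (hACT.1 (ρ γ) oo oo_up).2.1).1
      linarith
    have h4 : hs (ρ γ : Mat) / K ≤ ch x (ga (ρ γ) y) := by
      rw [div_le_iff₀ hKpos]
      linarith
    have h5 : 0 < hs (ρ γ : Mat) / K := div_pos h3 hKpos
    have h6 : ch x (ga (ρ γ) y) ^ (-s) ≤ (hs (ρ γ : Mat) / K) ^ (-s) :=
      Real.rpow_le_rpow_of_nonpos h5 h4 (by linarith)
    refine le_trans h6 (le_of_eq ?_)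
    rw [Real.div_rpow h3.le hKpos.le, Real.rpow_neg hKpos.le, div_inv_eq_mul, mul_comm]
  have h7 : PS ρ s x y ≤ ∑' γ : Γ, ENNReal.ofReal (K ^ s * hs (ρ γ : Mat) ^ (-s)) :=
    ENNReal.tsum_le_tsum fun γ => ENNReal.ofReal_le_ofReal (hbd γ)
  exact lt_of_le_of_lt h7 (hsum.mul_left (K ^ s)).tsum_ofReal_lt_top

end Pool.Agent.Helper40.QT
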